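import Pool.Agent.H394R2.Quad.Diag
import Pool.Agent.H918R2.Quad.Trdeg

/-! Task P3: function fields of hypersurfaces of degree two. -/

set_option autoImplicit false

open Cardinal

namespace Pool.Agent.H394R2.Quad

open Pool.Agent.H918R2.Quad

section tools

variable {K F : Type} [Field K] [Field F] [Algebra K F]

theorem trdeg_le_of_adjoin {ρ : Type} [Finite ρ] (t : ρ → F)
    (ht : IntermediateField.adjoin K (Set.range t) = ⊤) :
    Algebra.trdeg K F ≤ (Nat.card ρ : Cardinal) := by
  have := isAlgebraic_of_adjoin_eq_top (Set.range t) ht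
  have h1 := Algebra.IsAlgebraic.trdeg_le_cardinalMk K (Set.range t)
  rw [Nat.cast_card]
  exact h1.trans Cardinal.mk_range_le

theorem indep_of_adjoin {ρ : Type} [Finite ρ] (t : ρ → F)
    (ht : IntermediateField.adjoin K (Set.range t) = ⊤)
    (h : (Nat.card ρ : Cardinal) ≤ Algebra.trdeg K F) : AlgebraicIndependent K t := by
  have := isAlgebraic_of_adjoin_eq_top (Set.range t) ht
  rw [Nat.cast_card] at h
  exact (Algebra.IsAlgebraic.isTranscendenceBasis_of_le_trdeg_of_finite K t h).1

theorem tower (L : IntermediateField K F) {ρ : Type} [Finite ρ] (t : ρ → F)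
    (ht : IntermediateField.adjoin L (Set.range t) = ⊤) (m : ℕ)
    (hL : Algebra.trdeg K L ≤ (m : Cardinal))
    (h : ((m + Nat.card ρ : ℕ) : Cardinal) ≤ Algebra.trdeg K F) :
    AlgebraicIndependent L t ∧ Algebra.trdeg K L = (m : Cardinal) := by
  have h1 := trdeg_le_of_adjoin (K := L) t ht
  have h2 := _root_.trdeg_add_eq K L (A := F)
  obtain ⟨a, ha⟩ := Cardinal.lt_aleph0.1 (hL.trans_lt Cardinal.natCast_lt_aleph0)
  obtain ⟨b, hb⟩ := Cardinal.lt_aleph0.1 (h1.trans_lt Cardinal.natCast_lt_aleph0)
  rw [← h2, ha, hb] at h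
  rw [ha] at hL
  rw [hb] at h1
  have h3 : m + Nat.card ρ ≤ a + b := by exact_mod_cast h
  have h4 : a ≤ m := by exact_mod_cast hL
  have h5 : b ≤ Nat.card ρ := by exact_mod_cast h1
  have h6 : a = m := by omega
  have h7 : b = Nat.card ρ := by omega
  refine ⟨indep_of_adjoin t ht ?_, ?_⟩
  · rw [hb, h7]
  · rw [ha, h6]

theorem top_of_mem {ι : Type} (g : ι → F) (hg : IntermediateField.adjoin K (Set.range g) = ⊤)
    (L : IntermediateField K F) {ρ : Type} (t : ρ → F) (h : ∀ i, g i ∈ L ∨ g i ∈ Set.range t) :
    IntermediateField.adjoin L (Set.range t) = ⊤ := by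
  have h1 : IntermediateField.adjoin K (Set.range g)
      ≤ (IntermediateField.adjoin L (Set.range t)).restrictScalars K := by
    rw [IntermediateField.adjoin_le_iff]
    rintro _ ⟨i, rfl⟩
    show g i ∈ IntermediateField.adjoin L (Set.range t)
    rcases h i with hi | hi
    · exact (IntermediateField.adjoin L (Set.range t)).algebraMap_mem ⟨g i, hi⟩
    · exact IntermediateField.subset_adjoin L _ hi
  rw [eq_top_iff]
  intro z _
  have h2 : z ∈ IntermediateField.adjoin K (Set.range g) := by rw [hg]; trivial
  exact h1 h2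

theorem top_of_mem' {ι : Type} (g : ι → F) (hg : IntermediateField.adjoin K (Set.range g) = ⊤)
    {ρ : Type} (t : ρ → F) (h : ∀ i, g i ∈ IntermediateField.adjoin K (Set.range t)) :
    IntermediateField.adjoin K (Set.range t) = ⊤ := by
  rw [eq_top_iff, ← hg, IntermediateField.adjoin_le_iff]
  rintro _ ⟨i, rfl⟩
  exact h i

theorem gen_div {N : ℕ} {ι : Type} [Fintype ι] (x : Fin (N + 1) → F) (hx0 : x 0 = 1)
    (hgen : IntermediateField.adjoin K (Set.range x) = ⊤) (y : ι → F)
    (u : Fin (N + 1) → ι → K) (hx : ∀ i, x i = ∑ j, algebraMap K F (u i j) * y j) (s : ι)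
    (hs : y s ≠ 0) : IntermediateField.adjoin K (Set.range (fun i => y i / y s)) = ⊤ := by
  refine top_of_mem' x hgen _ ?_
  obtain ⟨L, hL⟩ : ∃ L, L = IntermediateField.adjoin K (Set.range (fun i => y i / y s)) := ⟨_, rfl⟩
  rw [← hL]
  have h1 : ∀ j, y j / y s ∈ L := by
    intro j
    rw [hL]
    exact IntermediateField.subset_adjoin K _ ⟨j, rfl⟩
  have h2 : ∀ i, x i / y s ∈ L := by
    intro i
    rw [hx, Finset.sum_div]
    refine L.sum_mem fun j _ => ?_
    rw [mul_div_assoc]
    exact L.mul_mem (L.algebraMap_mem _) (h1 j)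
  intro i
  have h3 : x i = (x i / y s) / (x 0 / y s) := by
    rw [hx0]
    field_simp
  rw [h3]
  exact L.div_mem (h2 i) (h2 0)

/-- the subfield generated by finitely many elements is generated by them -/
theorem adjoin_lift {ρ : Type} (t : ρ → F)
    (t' : ρ → IntermediateField.adjoin K (Set.range t)) (h : ∀ j, (t' j : F) = t j) :
    IntermediateField.adjoin K (Set.range t') = ⊤ := by
  apply IntermediateField.map_injective (IntermediateField.adjoin K (Set.range t)).val
  rw [IntermediateField.adjoin_map, ← AlgHom.fieldRange_eq_map, IntermediateField.fieldRange_val]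
  congr 1
  rw [← Set.range_comp]
  congr 1
  funext j
  exact h j

end tools

/-- TASK P3. Function fields of hypersurfaces of degree two. -/
theorem degree_two_cases {K F : Type} [Field K] [CharZero K] [Field F] [Algebra K F] {N : ℕ}
    (x : Fin (N + 1) → F) (hx0 : x 0 = 1) (hgen : IntermediateField.adjoin K (Set.range x) = ⊤)
    (htr : (N : Cardinal) ≤ Algebra.trdeg K F + 1)
    (c : Fin (N + 1) → Fin (N + 1) → K) (hc : ∃ v : Fin (N + 1) → K, ∑ i, ∑ j, c i j * v i * v j ≠ 0)
    (hrel : ∑ i, ∑ j, algebraMap K F (c i j) * x i * x j = 0) :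
    (∃ K' : IntermediateField K F, FiniteDimensional K K' ∧ ∃ (ρ : Type) (_ : Finite ρ)
      (t : ρ → F), AlgebraicIndependent K' t ∧ IntermediateField.adjoin K' (Set.range t) = ⊤) ∨
    (∃ (m : ℕ) (a : Fin (m + 2) → K) (_ : ∀ i, a i ≠ 0) (F₀ : IntermediateField K F)
      (y : Fin (m + 2) → F₀) (_ : y 0 = 1) (_ : ∑ i, algebraMap K F₀ (a i) * y i ^ 2 = 0)
      (_ : IntermediateField.adjoin K (Set.range y) = ⊤)
      (_ : ∃ b : Fin m → F₀, IsTranscendenceBasis K b) (ρ : Type) (_ : Finite ρ) (t : ρ → F),
      AlgebraicIndependent F₀ t ∧ IntermediateField.adjoin F₀ (Set.range t) = ⊤) := by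
  classical
  obtain ⟨ι, _, y, w, u, hcard, hx, ⟨i1, hi1⟩, hw⟩ := diag x c hc hrel
  -- the transcendence degree
  have hT0 := trdeg_le_of_adjoin x hgen
  obtain ⟨T, hT⟩ := Cardinal.lt_aleph0.1 (hT0.trans_lt Cardinal.natCast_lt_aleph0)
  rw [hT] at htr
  have hNT : N ≤ T + 1 := by exact_mod_cast htr
  have hsplit : Fintype.card {i // w i ≠ 0} + Fintype.card {i // w i = 0} = N + 1 := by
    rw [Fintype.card_subtype, Fintype.card_subtype, ← hcard, ← Finset.card_univ]
    have h1 := Finset.card_filter_add_card_filter_not (s := (Finset.univ : Finset ι))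
      (fun i => w i ≠ 0)
    simpa using h1
  have hnz : ∃ s, y s ≠ 0 := by
    by_contra hcon
    push Not at hcon
    have h1 := hx 0
    rw [hx0] at h1
    simp [hcon] at h1
  have hpos : 0 < Fintype.card {i // w i ≠ 0} := Fintype.card_pos_iff.2 ⟨⟨i1, hi1⟩⟩
  rcases Nat.lt_or_ge (Fintype.card {i // w i ≠ 0}) 2 with hr | hr
  · -- rank one
    left
    have hr1 : Fintype.card {i // w i ≠ 0} = 1 := by omega
    obtain ⟨s, hs⟩ := hnz
    have hw0 : ∀ i, i ≠ i1 → w i = 0 := by
      intro i hi
      by_contra hwi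
      obtain ⟨z, hz⟩ := Fintype.card_eq_one_iff.1 hr1
      have h1 := (hz ⟨i, hwi⟩).trans (hz ⟨i1, hi1⟩).symm
      exact hi (congrArg Subtype.val h1)
    have hy1 : y i1 = 0 := by
      rw [Finset.sum_eq_single i1] at hw
      · rcases mul_eq_zero.1 hw with h1 | h1
        · exact absurd ((map_eq_zero _).1 h1) hi1
        · exact pow_eq_zero_iff (two_ne_zero) |>.1 h1
      · intro i _ hi
        rw [hw0 i hi, map_zero, zero_mul]
      · simp
    have hs1 : s ≠ i1 := by
      rintro rfl
      exact hs hy1
    have hg := gen_div x hx0 hgen y u hx s hs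
    have ht : IntermediateField.adjoin (⊥ : IntermediateField K F)
        (Set.range (fun i : {i // w i = 0 ∧ i ≠ s} => y i / y s)) = ⊤ := by
      refine top_of_mem _ hg ⊥ _ (fun i => ?_)
      by_cases h1 : i = i1
      · left
        rw [h1, hy1, zero_div]
        exact (⊥ : IntermediateField K F).zero_mem
      · by_cases h2 : i = s
        · left
          rw [h2, div_self hs]
          exact (⊥ : IntermediateField K F).one_mem
        · right
          exact ⟨⟨i, hw0 i h1, h2⟩, rfl⟩
    have hcard2 : Nat.card {i // w i = 0 ∧ i ≠ s} + 1 = Fintype.card {i // w i = 0} := by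
      rw [Nat.card_eq_fintype_card, Fintype.card_subtype, Fintype.card_subtype]
      have h1 : Finset.univ.filter (fun i => w i = 0 ∧ i ≠ s)
          = (Finset.univ.filter (fun i => w i = 0)).erase s := by
        ext i
        simp only [Finset.mem_filter, Finset.mem_univ, true_and, Finset.mem_erase]
        tauto
      rw [h1, Finset.card_erase_add_one]
      rw [Finset.mem_filter]
      exact ⟨Finset.mem_univ _, hw0 s hs1⟩
    have h3 := tower (⊥ : IntermediateField K F) _ ht 0 (by
      rw [trdeg_eq_zero]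
      exact zero_le) (by
      rw [hT]
      have : 0 + Nat.card {i // w i = 0 ∧ i ≠ s} ≤ T := by omega
      exact_mod_cast this)
    exact ⟨⊥, inferInstance, _, inferInstance, _, h3.1, ht⟩
  · -- rank at least two
    right
    obtain ⟨m, hm⟩ : ∃ m, Fintype.card {i // w i ≠ 0} = m + 2 :=
      ⟨Fintype.card {i // w i ≠ 0} - 2, by omega⟩
    have hs : ∃ s, w s ≠ 0 ∧ y s ≠ 0 := by
      by_contra hcon
      push Not at hcon
      obtain ⟨s, hs⟩ := hnz
      have hws : w s = 0 := by
        by_contra h1
        exact hs (hcon s h1)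
      have hg := gen_div x hx0 hgen y u hx s hs
      have ht : IntermediateField.adjoin K
          (Set.range (fun i : {i // w i = 0 ∧ i ≠ s} => y i / y s)) = ⊤ := by
        refine top_of_mem' _ hg _ (fun i => ?_)
        by_cases h1 : w i = 0
        · by_cases h2 : i = s
          · rw [h2, div_self hs]
            exact IntermediateField.one_mem _
          · exact IntermediateField.subset_adjoin K _ ⟨⟨i, h1, h2⟩, rfl⟩
        · rw [hcon i h1, zero_div]
          exact IntermediateField.zero_mem _
      have hcard2 : Nat.card {i // w i = 0 ∧ i ≠ s} + 1 = Fintype.card {i // w i = 0} := by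
        rw [Nat.card_eq_fintype_card, Fintype.card_subtype, Fintype.card_subtype]
        have h1 : Finset.univ.filter (fun i => w i = 0 ∧ i ≠ s)
            = (Finset.univ.filter (fun i => w i = 0)).erase s := by
          ext i
          simp only [Finset.mem_filter, Finset.mem_univ, true_and, Finset.mem_erase]
          tauto
        rw [h1, Finset.card_erase_add_one]
        rw [Finset.mem_filter]
        exact ⟨Finset.mem_univ _, hws⟩
      have h4 := trdeg_le_of_adjoin _ ht
      rw [hT] at h4
      have h5 : T ≤ Nat.card {i // w i = 0 ∧ i ≠ s} := by exact_mod_cast h4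
      omega
    obtain ⟨s, hws, hys⟩ := hs
    have hg := gen_div x hx0 hgen y u hx s hys
    obtain ⟨e, he⟩ : ∃ e : Fin (m + 2) ≃ {i // w i ≠ 0}, e 0 = ⟨s, hws⟩ := by
      obtain ⟨e0⟩ : Nonempty (Fin (m + 2) ≃ {i // w i ≠ 0}) :=
        ⟨(Fintype.equivFinOfCardEq hm).symm⟩
      refine ⟨(Equiv.swap 0 (e0.symm ⟨s, hws⟩)).trans e0, ?_⟩
      simp
    obtain ⟨t0, ht0⟩ : ∃ t0 : Fin (m + 2) → F, ∀ j, t0 j = y (e j) / y s := ⟨_, fun j => rfl⟩
    obtain ⟨y', hy'⟩ : ∃ y' : Fin (m + 2) → IntermediateField.adjoin K (Set.range t0),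
        ∀ j, (y' j : F) = t0 j :=
      ⟨fun j => ⟨t0 j, IntermediateField.subset_adjoin K _ ⟨j, rfl⟩⟩, fun j => rfl⟩
    have hgen' := adjoin_lift t0 y' hy'
    have hy0 : y' 0 = 1 := by
      apply Subtype.ext
      rw [hy' 0, ht0, he]
      simpa using div_self hys
    have hrel' : ∑ i, algebraMap K (IntermediateField.adjoin K (Set.range t0)) (w (e i)) * y' i ^ 2
        = 0 := by
      have h1 : ∑ i : Fin (m + 2), algebraMap K F (w (e i)) * (y (e i) / y s) ^ 2 = 0 := by
        rw [Equiv.sum_comp e (fun i : {i // w i ≠ 0} => algebraMap K F (w i) * (y i / y s) ^ 2)]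
        have h2 : ∑ i : ι, algebraMap K F (w i) * (y i / y s) ^ 2 = 0 := by
          have h3 : ∑ i : ι, algebraMap K F (w i) * (y i / y s) ^ 2
              = (∑ i : ι, algebraMap K F (w i) * y i ^ 2) / y s ^ 2 := by
            rw [Finset.sum_div]
            refine Finset.sum_congr rfl (fun i _ => ?_)
            rw [div_pow]
            ring
          rw [h3, hw, zero_div]
        rw [← Finset.sum_subtype (Finset.univ.filter (fun i => w i ≠ 0)) (by simp)
          (fun i => algebraMap K F (w i) * (y i / y s) ^ 2), ← h2]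
        refine Finset.sum_subset (Finset.filter_subset _ _) (fun i _ hi => ?_)
        have h4 : w i = 0 := by
          by_contra h5
          exact hi (Finset.mem_filter.2 ⟨Finset.mem_univ _, h5⟩)
        rw [h4, map_zero, zero_mul]
      apply (algebraMap (IntermediateField.adjoin K (Set.range t0)) F).injective
      rw [map_sum, map_zero, ← h1]
      refine Finset.sum_congr rfl (fun i _ => ?_)
      rw [map_mul, map_pow, ← IsScalarTower.algebraMap_apply, ← ht0, ← hy']
      rfl
    have htrm : Algebra.trdeg K (IntermediateField.adjoin K (Set.range t0)) ≤ (m : Cardinal) := by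
      by_contra hcon
      rw [not_le] at hcon
      have hfin := trdeg_le_of_adjoin y' hgen'
      obtain ⟨a, ha⟩ := Cardinal.lt_aleph0.1 (hfin.trans_lt Cardinal.natCast_lt_aleph0)
      rw [ha] at hcon
      have hma : m < a := by exact_mod_cast hcon
      have hgen2 : IntermediateField.adjoin K (Set.range (fun j : Fin (m + 1) => y' j.succ)) = ⊤ := by
        refine top_of_mem' y' hgen' _ (fun j => ?_)
        refine Fin.cases ?_ (fun j => ?_) j
        · rw [hy0]
          exact IntermediateField.one_mem _
        · exact IntermediateField.subset_adjoin K _ ⟨j, rfl⟩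
      have hind := indep_of_adjoin _ hgen2 (by
        rw [ha, Nat.card_eq_fintype_card, Fintype.card_fin]
        exact_mod_cast hma)
      rw [algebraicIndependent_iff] at hind
      have h1 := hind (MvPolynomial.C (w (e 0)) + ∑ j : Fin (m + 1),
        MvPolynomial.C (w (e j.succ)) * MvPolynomial.X j ^ 2) (by
          rw [Fin.sum_univ_succ, hy0] at hrel'
          simp only [map_add, map_sum, map_mul, map_pow, MvPolynomial.aeval_X,
            MvPolynomial.aeval_C]
          simpa using hrel')
      have h2 := congrArg (MvPolynomial.eval (fun _ => (0 : K))) h1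
      simp only [map_add, map_sum, map_mul, map_pow, MvPolynomial.eval_X, MvPolynomial.eval_C,
        map_zero] at h2
      simp at h2
      exact (e 0).2 h2
    have ht : IntermediateField.adjoin (IntermediateField.adjoin K (Set.range t0))
        (Set.range (fun i : {i // w i = 0} => y i / y s)) = ⊤ := by
      refine top_of_mem _ hg _ _ (fun i => ?_)
      by_cases h1 : w i = 0
      · right
        exact ⟨⟨i, h1⟩, rfl⟩
      · left
        obtain ⟨j, hj⟩ := e.surjective ⟨i, h1⟩
        refine IntermediateField.subset_adjoin K _ ⟨j, ?_⟩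
        rw [ht0, hj]
    have h3 := tower _ _ ht m htrm (by
      rw [hT, Nat.card_eq_fintype_card]
      have : m + Fintype.card {i // w i = 0} ≤ T := by omega
      exact_mod_cast this)
    obtain ⟨S, hS⟩ := exists_isTranscendenceBasis K (IntermediateField.adjoin K (Set.range t0))
    have hScard := hS.cardinalMk_eq_trdeg
    rw [h3.2] at hScard
    obtain ⟨eS⟩ : Nonempty (Fin m ≃ S) := by
      rw [← Cardinal.eq, Cardinal.mk_fin, hScard]
    exact ⟨m, fun j => w (e j), fun j => (e j).2, _, y', hy0, hrel', hgen',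
      ⟨_, hS.comp_equiv eS⟩, _, inferInstance, _, h3.1, ht⟩

end Pool.Agent.H394R2.Quad
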