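import Mathlib

/-! Diagonalisation of a quadratic relation between elements of an extension field. -/

set_option autoImplicit false

namespace Pool.Agent.H394R2.Quad

theorem diag {K F : Type} [Field K] [CharZero K] [Field F] [Algebra K F] {n : ℕ}
    (x : Fin n → F) (c : Fin n → Fin n → K)
    (hc : ∃ v : Fin n → K, ∑ i, ∑ j, c i j * v i * v j ≠ 0)
    (hrel : ∑ i, ∑ j, algebraMap K F (c i j) * x i * x j = 0) :
    ∃ (ι : Type) (_ : Fintype ι) (y : ι → F) (w : ι → K) (u : Fin n → ι → K),
      Fintype.card ι = n ∧ (∀ i, x i = ∑ j, algebraMap K F (u i j) * y j) ∧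
      (∃ i, w i ≠ 0) ∧ ∑ i, algebraMap K F (w i) * y i ^ 2 = 0 := by
  classical
  have : Invertible (2 : K) := invertibleOfNonzero two_ne_zero
  obtain ⟨M, hM⟩ : ∃ M : Matrix (Fin n) (Fin n) K, ∀ i j, M i j = c i j + c j i :=
    ⟨Matrix.of fun i j => c i j + c j i, fun i j => rfl⟩
  obtain ⟨B, hB⟩ : ∃ B : LinearMap.BilinForm K (Fin n → K), ∀ a b, B a b = ∑ i, ∑ j, a i * M i j * b j :=
    ⟨Matrix.toBilin' M, fun a b => Matrix.toBilin'_apply _ _ _⟩
  have hBs : LinearMap.IsSymm B := by
    constructor
    intro a b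
    rw [RingHom.id_apply, hB, hB, Finset.sum_comm]
    refine Finset.sum_congr rfl (fun i _ => Finset.sum_congr rfl (fun j _ => ?_))
    rw [hM, hM]
    ring
  obtain ⟨v, hv⟩ := LinearMap.BilinForm.exists_orthogonal_basis hBs
  have horth : ∀ i j, i ≠ j → B (v i) (v j) = 0 := fun i j hij => hv hij
  have hBB : ∀ a : Fin n → K, B a a = 2 * ∑ i, ∑ j, c i j * a i * a j := by
    intro a
    rw [hB]
    have h1 : ∑ i, ∑ j, a i * M i j * a j
        = ∑ i, ∑ j, c i j * a i * a j + ∑ i, ∑ j, c j i * a i * a j := by
      rw [← Finset.sum_add_distrib]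
      refine Finset.sum_congr rfl (fun i _ => ?_)
      rw [← Finset.sum_add_distrib]
      refine Finset.sum_congr rfl (fun j _ => ?_)
      rw [hM]
      ring
    have h2 : ∑ i, ∑ j, c j i * a i * a j = ∑ i, ∑ j, c i j * a i * a j := by
      rw [Finset.sum_comm]
      refine Finset.sum_congr rfl (fun i _ => Finset.sum_congr rfl (fun j _ => ?_))
      ring
    rw [h1, h2]
    ring
  obtain ⟨y, hy⟩ : ∃ y : Fin (Module.finrank K (Fin n → K)) → F, ∀ j, y j =
      ∑ k, algebraMap K F (v.repr (Pi.single k 1) j) * x k := ⟨_, fun j => rfl⟩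
  have hx : ∀ i, x i = ∑ j, algebraMap K F (v j i) * y j := by
    intro i
    have h1 : ∀ k, ∑ j, v.repr (Pi.single k 1) j * v j i = (Pi.single k 1 : Fin n → K) i := by
      intro k
      have h2 := congrFun (v.sum_repr (Pi.single k 1)) i
      rw [Finset.sum_apply] at h2
      rw [← h2]
      refine Finset.sum_congr rfl (fun j _ => ?_)
      rw [Pi.smul_apply, smul_eq_mul]
    have h3 : ∑ j, algebraMap K F (v j i) * y j
        = ∑ k, algebraMap K F (∑ j, v.repr (Pi.single k 1) j * v j i) * x k := by
      simp only [hy, map_sum, Finset.mul_sum, Finset.sum_mul, map_mul]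
      rw [Finset.sum_comm]
      refine Finset.sum_congr rfl (fun k _ => Finset.sum_congr rfl (fun j _ => ?_))
      ring
    rw [h3]
    simp only [h1]
    rw [Finset.sum_eq_single i]
    · simp
    · intro k _ hk
      rw [Pi.single_eq_of_ne (Ne.symm hk)]
      simp
    · simp
  refine ⟨Fin (Module.finrank K (Fin n → K)), inferInstance, y, fun i => B (v i) (v i),
    fun i j => v j i, by simp, hx, ?_, ?_⟩
  · by_contra hcon
    push Not at hcon
    have h1 : B = 0 := by
      apply LinearMap.BilinForm.ext_basis v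
      intro i j
      by_cases hij : i = j
      · subst hij
        rw [hcon i]
        simp
      · rw [horth i j hij]
        simp
    obtain ⟨a, ha⟩ := hc
    apply ha
    have h2 := hBB a
    rw [h1] at h2
    simp only [LinearMap.zero_apply] at h2
    have h3 : (2 : K) ≠ 0 := two_ne_zero
    exact (mul_eq_zero.1 h2.symm).resolve_left h3
  · have h1 : ∑ i, algebraMap K F (B (v i) (v i)) * y i ^ 2
        = ∑ i, ∑ l, algebraMap K F (B (v i) (v l)) * (y i * y l) := by
      refine Finset.sum_congr rfl (fun i _ => ?_)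
      rw [Finset.sum_eq_single i]
      · ring
      · intro l _ hl
        rw [horth i l (Ne.symm hl), map_zero, zero_mul]
      · simp
    have h2 : ∑ i, ∑ l, algebraMap K F (B (v i) (v l)) * (y i * y l)
        = ∑ j, ∑ k, algebraMap K F (M j k) * x j * x k := by
      have h3 : ∀ j k, algebraMap K F (M j k) * x j * x k
          = ∑ i, ∑ l, algebraMap K F (v i j * M j k * v l k) * (y i * y l) := by
        intro j k
        rw [hx j, hx k, mul_assoc, Finset.sum_mul_sum, Finset.mul_sum]
        refine Finset.sum_congr rfl (fun i _ => ?_)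
        rw [Finset.mul_sum]
        refine Finset.sum_congr rfl (fun l _ => ?_)
        simp only [map_mul]
        ring
      simp only [h3]
      have h4 : ∀ i l, algebraMap K F (B (v i) (v l)) * (y i * y l)
          = ∑ j, ∑ k, algebraMap K F (v i j * M j k * v l k) * (y i * y l) := by
        intro i l
        rw [hB, map_sum, Finset.sum_mul]
        refine Finset.sum_congr rfl (fun j _ => ?_)
        rw [map_sum, Finset.sum_mul]
      simp only [h4]
      -- reorder i l j k to j k i l
      calc ∑ i, ∑ l, ∑ j, ∑ k, algebraMap K F (v i j * M j k * v l k) * (y i * y l)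
          = ∑ i, ∑ j, ∑ l, ∑ k, algebraMap K F (v i j * M j k * v l k) * (y i * y l) :=
            Finset.sum_congr rfl (fun i _ => Finset.sum_comm)
        _ = ∑ j, ∑ i, ∑ l, ∑ k, algebraMap K F (v i j * M j k * v l k) * (y i * y l) :=
            Finset.sum_comm
        _ = ∑ j, ∑ i, ∑ k, ∑ l, algebraMap K F (v i j * M j k * v l k) * (y i * y l) :=
            Finset.sum_congr rfl (fun j _ => Finset.sum_congr rfl (fun i _ => Finset.sum_comm))
        _ = ∑ j, ∑ k, ∑ i, ∑ l, algebraMap K F (v i j * M j k * v l k) * (y i * y l) :=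
            Finset.sum_congr rfl (fun j _ => Finset.sum_comm)
    rw [h1, h2]
    have h5 : ∑ j, ∑ k, algebraMap K F (M j k) * x j * x k
        = ∑ j, ∑ k, algebraMap K F (c j k) * x j * x k
          + ∑ j, ∑ k, algebraMap K F (c k j) * x j * x k := by
      rw [← Finset.sum_add_distrib]
      refine Finset.sum_congr rfl (fun i _ => ?_)
      rw [← Finset.sum_add_distrib]
      refine Finset.sum_congr rfl (fun j _ => ?_)
      rw [hM, map_add]
      ring
    have h6 : ∑ j, ∑ k, algebraMap K F (c k j) * x j * x k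
        = ∑ j, ∑ k, algebraMap K F (c j k) * x j * x k := by
      rw [Finset.sum_comm]
      refine Finset.sum_congr rfl (fun i _ => Finset.sum_congr rfl (fun j _ => ?_))
      ring
    rw [h5, h6, hrel, add_zero]

end Pool.Agent.H394R2.Quad
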